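import Mathlib
import Pool.Agent.Q91.BX.Fin
import Pool.Agent.Q6.BX.Roots
import Pool.Agent.Q210.BX.Stab

/-!
# The formula of Bateman and Horn for almost all polynomials of each degree, complete range

For every degree `d` and every `A` the formula of Bateman and Horn holds with a relative error of at most
`(log H) ^ (-A)` for all but a proportion `(log H) ^ (-A)` of the integer polynomials of degree `d` with
coefficients up to `H`, for ALL `K` between `(log H) ^ B` and `H / (log H) ^ B`, the Euler product being cut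
ANYWHERE between `(log H) ^ E` and `H ^ (1 / 3)`.

Method: first moment over all coefficients by the circle method (modules `Pool/Agent/H300R2/FB`,
`Pool/Agent/TH892` of the starting files for `K ≥ H ^ ε` and one cut; `Pool/Agent/Q91/BX` for the complete
range); the change of the Euler product between two cuts by second moments of root counts
(`Pool/Agent/Q6/BX`, `Pool/Agent/Q210/BX`).
-/

set_option autoImplicit false

namespace Pool.Agent.Results.MP_51e72e_nt.AlmostAllPolynomials

open Finset Polynomial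

/-- The polynomial with the coefficients `c 0, ..., c d`. -/
noncomputable def poly {d : ℕ} (c : Fin (d + 1) → ℤ) : ℤ[X] := ∑ i : Fin (d + 1), C (c i) * X ^ (i : ℕ)

/-- The coefficient vectors of height at most `H` with positive leading coefficient: `|c i| ≤ H` for all `i`
and `1 ≤ c d`. -/
noncomputable def Box (d H : ℕ) : Finset (Fin (d + 1) → ℤ) :=
  (Fintype.piFinset (fun _ => Icc (-(H : ℤ)) H)).filter (fun c => 1 ≤ c (Fin.last d))

/-- `ω_f(p)`: the number of the `n` in `{0, ..., p - 1}` with `f(n) ≡ 0 (mod p)`. -/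
noncomputable def omega (f : ℤ[X]) (p : ℕ) : ℕ :=
  ((range p).filter (fun n : ℕ => (p : ℤ) ∣ f.eval (n : ℤ))).card

/-- The product `C_f`, cut at `z`. -/
noncomputable def cutC (f : ℤ[X]) (z : ℕ) : ℝ :=
  ∏ p ∈ (Icc 1 z).filter Nat.Prime, (1 - (omega f p : ℝ) / p) / (1 - 1 / (p : ℝ))

/-- `π_f(K)`: the number of the `n` with `1 ≤ n ≤ K` for which `|f(n)|` is a prime. -/
noncomputable def piF (f : ℤ[X]) (K : ℕ) : ℕ :=
  ((Icc 1 K).filter (fun n : ℕ => (f.eval (n : ℤ)).natAbs.Prime)).card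

/-- The sum of `1 / log |f(n)|` over the `n` with `1 ≤ n ≤ K` and `|f(n)| ≥ 2`. -/
noncomputable def M (f : ℤ[X]) (K : ℕ) : ℝ :=
  ∑ n ∈ (Icc 1 K).filter (fun n : ℕ => 2 ≤ |f.eval (n : ℤ)|), 1 / Real.log |((f.eval (n : ℤ) : ℤ) : ℝ)|

lemma box_eq (d H : ℕ) : Box d H = Pool.Agent.TH892.box d H := by
  unfold Box Pool.Agent.TH892.box
  ext c
  rw [mem_filter, Fintype.mem_piFinset, Fintype.mem_piFinset]
  constructor
  · rintro ⟨h1, h2⟩ i
    by_cases hi : (i : ℕ) = d
    · rw [if_pos hi, mem_Icc]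
      have h3 := h1 i
      rw [mem_Icc] at h3
      have h4 : i = Fin.last d := Fin.ext hi
      subst h4
      exact ⟨h2, h3.2⟩
    · rw [if_neg hi]
      exact h1 i
  · intro h
    have hl := h (Fin.last d)
    rw [if_pos (Fin.val_last d), mem_Icc] at hl
    refine ⟨fun i => ?_, hl.1⟩
    by_cases hi : (i : ℕ) = d
    · have h4 : i = Fin.last d := Fin.ext hi
      subst h4
      rw [mem_Icc]
      omega
    · have h3 := h i
      rwa [if_neg hi] at h3

/-- **The formula of Bateman and Horn for almost all polynomials, complete range.** -/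
theorem result (d : ℕ) (hd : 1 ≤ d) (A : ℕ) : ∃ E B H₀ : ℕ, ∀ H : ℕ, H₀ ≤ H →
    ∃ Bad ⊆ Box d H, (Bad.card : ℝ) ≤ ((Box d H).card : ℝ) / Real.log H ^ A ∧
    ∀ c ∈ Box d H, c ∉ Bad → (∀ p : ℕ, p.Prime → omega (poly c) p < p) →
      Irreducible (poly c) ∧
      ∀ K : ℕ, Real.log H ^ B ≤ K → (K : ℝ) * Real.log H ^ B ≤ H →
        (K : ℝ) / (Real.log H * Real.log (Real.log H) ^ (2 * d + 1)) ≤ piF (poly c) K ∧
        ∀ z : ℕ, Real.log H ^ E ≤ z → (z : ℝ) ≤ (H : ℝ) ^ (1 / 3 : ℝ) →
          |(piF (poly c) K : ℝ) - cutC (poly c) z * M (poly c) K| ≤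
            cutC (poly c) z * M (poly c) K / Real.log H ^ A := by
  obtain ⟨E, B, H₀, h⟩ := Pool.Agent.Q91.BX.final
    (Pool.Agent.Q210.BX.stab Pool.Agent.Q6.BX.cor Pool.Agent.Q6.BX.sq Pool.Agent.Q6.BX.dvd
      Pool.Agent.Q6.BX.le) d hd A
  refine ⟨E, B, H₀, fun H hH => ?_⟩
  rw [box_eq]
  exact h H hH

end Pool.Agent.Results.MP_51e72e_nt.AlmostAllPolynomials
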