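import Pool.Agent.Q236.QG.Fin

set_option autoImplicit false

/-!
# The prime points of a typical system of polynomials form a Poisson process with exponential gaps

Let `P_i = F_i + c_{i0} + c_{i1} x + … + c_{i,d-1} x^(d-1)`, `i = 1, …, n`, with ARBITRARY `F_i ∈ ℤ[x]`, where the
coefficients `c_{ij}` are in intervals of length at least `X / log^C X` such that all values which occur have the size
`X` up to a power of `log X`, and let `𝔖 = 𝔖_w(P)` be the singular series of Bateman-Horn, the product over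
the primes `p ≤ w`.  A prime point is a `k` with ALL `P_1(k), …, P_n(k)` PRIME.

For every `ε > 0` there are `d₀, w₀, κ` such that, if `w ≥ w₀`, `d ≥ d₀`, `C` is arbitrary and `X` is large, then on
EVERY stretch `(K₀, K₀ + K]` with `κ log^n X ≤ K` and `K₀ + K ≤ log^C X` all but at most `ε` of the systems satisfy:

* **Gaps.** For ALL real `t ≥ 0` at the same time the number of the pairs of consecutive prime points `k < k'` with
  `k' - k > t log^n X` is `(K / log^n X) (𝔖 exp(-𝔖 t) + O*(ε))`.  (`t = 0`: the number of prime points.)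
* **Poisson process.** For fixed disjoint windows the numbers of prime points in the windows
  `(k + α_i log^n X, k + β_i log^n X]`, `k` running through the stretch, have a joint distribution at distance `≤ ε`
  (total variation) from independent Poisson variables with the means `𝔖 (β_i - α_i)`.
-/

namespace Pool.Agent.Results.MP_51e72e_nt.ExponentialGaps

open Finset Filter

/-- The value at `k` of `F + c_0 + c_1 x + … + c_{d-1} x^(d-1)`. -/
noncomputable def value {d : ℕ} (F : Polynomial ℤ) (c : Fin d → ℤ) (k : ℕ) : ℤ :=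
  F.eval (k : ℤ) + ∑ j, c j * (k : ℤ) ^ (j : ℕ)

/-- The arrays of coefficients `Z i j < c i j ≤ Z i j + Y i j`. -/
noncomputable def Arrays {n d : ℕ} (Z : Fin n → Fin d → ℤ) (Y : Fin n → Fin d → ℕ) : Finset (Fin n → Fin d → ℤ) :=
  Fintype.piFinset fun i => Fintype.piFinset fun j => Ioc (Z i j) (Z i j + Y i j)

/-- The sizes: intervals of length at least `X / log^C X` for the coefficients, arguments at most `log^C X`, values
between `X / log^C X` and `X log^C X`. -/
structure Sizes (C X : ℕ) {n d : ℕ} (F : Fin n → Polynomial ℤ) (Z : Fin n → Fin d → ℤ) (Y : Fin n → Fin d → ℕ)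
    (S : Finset ℕ) : Prop where
  side : ∀ i j, (X : ℝ) / Real.log X ^ C ≤ Y i j
  arguments : ∀ k ∈ S, (k : ℝ) ≤ Real.log X ^ C
  values : ∀ c ∈ Arrays Z Y, ∀ k ∈ S, ∀ i, (X : ℝ) / Real.log X ^ C ≤ value (F i) (c i) k ∧
    (value (F i) (c i) k : ℝ) ≤ X * Real.log X ^ C

/-- All the values at `k` are primes. -/
def PrimePoint {n d : ℕ} (F : Fin n → Polynomial ℤ) (c : Fin n → Fin d → ℤ) (k : ℕ) : Prop :=
  ∀ i, (value (F i) (c i) k).toNat.Prime

open Classical in
/-- The number of the pairs of consecutive prime points in `(K₀, K₀ + K]` with a difference larger than `T`. -/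
noncomputable def longGaps {n d : ℕ} (F : Fin n → Polynomial ℤ) (c : Fin n → Fin d → ℤ) (K₀ K : ℕ) (T : ℝ) : ℕ :=
  ((Ioc K₀ (K₀ + K) ×ˢ Ioc K₀ (K₀ + K)).filter (fun x => PrimePoint F c x.1 ∧ PrimePoint F c x.2 ∧ x.1 < x.2 ∧
    (∀ k, x.1 < k → k < x.2 → ¬PrimePoint F c k) ∧ T < (x.2 : ℝ) - x.1)).card

open Classical in
/-- The number of the prime points in `T`. -/
noncomputable def primePoints {n d : ℕ} (F : Fin n → Polynomial ℤ) (T : Finset ℕ) (c : Fin n → Fin d → ℤ) : ℕ :=
  (T.filter (fun k => PrimePoint F c k)).card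

/-- The probability that independent Poisson variables with the means `x_t` are in `A`. -/
noncomputable def Poisson {r : ℕ} (x : Fin r → ℝ) (A : Finset (Fin r → ℕ)) : ℝ :=
  ∑ j ∈ A, ∏ t, (Real.exp (-x t) * x t ^ j t / (j t).factorial)

/-- The number of the residues `k` modulo `p` with `p ∣ P_1(k) ⋯ P_n(k)`. -/
noncomputable def omega {n d : ℕ} (F : Fin n → Polynomial ℤ) (c : Fin n → Fin d → ℤ) (p : ℕ) : ℕ :=
  ((range p).filter (fun k : ℕ => (p : ℤ) ∣ ∏ i, value (F i) (c i) k)).card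

/-- The truncated singular series `∏_{p ≤ w} (1 - ω(p) / p) / (1 - 1 / p) ^ n`. -/
noncomputable def singular {n d : ℕ} (F : Fin n → Polynomial ℤ) (w : ℕ) (c : Fin n → Fin d → ℤ) : ℝ :=
  ∏ p ∈ (range (w + 1)).filter Nat.Prime, ((1 - (omega F c p : ℝ) / p) * ((1 - (p : ℝ)⁻¹)⁻¹) ^ n)

open Pool.Agent.Q236.RP Pool.Agent.Q236.UL Pool.Agent.Q236.QG

lemma arrays_eq {n d : ℕ} (Z : Fin n → Fin d → ℤ) (Y : Fin n → Fin d → ℕ) : Arrays Z Y = BoxN Z Y := rfl

lemma singular_eq {n d : ℕ} (F : Fin n → Polynomial ℤ) (w : ℕ) (c : Fin n → Fin d → ℤ) :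
    singular F w c = ssw F w c := by
  unfold singular ssw
  rw [Finset.prod_mul_distrib, Finset.prod_pow, ← gP_eq, mul_comm]
  congr 1
  apply Finset.prod_congr rfl
  intro p _
  have : omega F c p = om (GG F c) p := by
    unfold omega om
    congr 1
    apply filter_congr
    intro k _
    rw [GG_eval]
    rfl
  rw [this]

lemma box_nonempty {d : ℕ} (Z : Fin d → ℤ) (Y : Fin d → ℕ) (hY : ∀ i, 1 ≤ Y i) : (Box Z Y).Nonempty := by
  refine ⟨fun i => Z i + 1, ?_⟩
  rw [mem_Box]
  intro i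
  have : (1 : ℤ) ≤ Y i := by exact_mod_cast hY i
  exact ⟨by linarith, by linarith⟩

lemma sizes_sz (C X : ℕ) {n d : ℕ} (F : Fin n → Polynomial ℤ) (Z : Fin n → Fin d → ℤ) (Y : Fin n → Fin d → ℕ)
    (S : Finset ℕ) (h : Sizes C X F Z Y S) (hX : (0 : ℝ) < (X : ℝ) / Real.log X ^ C) :
    ∀ i, SZ C X (fe F i) (Z i) (Y i) S := by
  have hY : ∀ i j, 1 ≤ Y i j := by
    intro i j
    have h1 := h.side i j
    have : (0 : ℝ) < Y i j := lt_of_lt_of_le hX h1
    exact_mod_cast this
  have key : ∀ i, ∀ b ∈ Box (Z i) (Y i), ∃ c ∈ Arrays Z Y, c i = b := by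
    intro i b hb
    refine ⟨fun l => if h : l = i then b else fun j => Z l j + 1, ?_, ?_⟩
    · rw [arrays_eq]
      unfold BoxN
      rw [Fintype.mem_piFinset]
      intro l
      split_ifs with hl
      · rw [hl]
        exact hb
      · rw [mem_Box]
        intro j
        have : (1 : ℤ) ≤ Y l j := by exact_mod_cast hY l j
        exact ⟨by linarith, by linarith⟩
    · simp
  intro i
  refine ⟨h.side i, h.arguments, ?_, ?_⟩
  · intro k hk b hb
    obtain ⟨c, hc, rfl⟩ := key i b hb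
    exact (h.values c hc k hk i).1
  · intro k hk b hb
    obtain ⟨c, hc, rfl⟩ := key i b hb
    exact (h.values c hc k hk i).2

open Classical in
/-- **Exponential gaps and the Poisson process of prime points for almost all systems of polynomials.** -/
theorem result (n r : ℕ) (α β : Fin r → ℝ) (ε : ℝ) (hn : 1 ≤ n) (hαβ : ∀ i, 0 ≤ α i ∧ α i ≤ β i)
    (hdis : ∀ i j, i ≠ j → β i ≤ α j ∨ β j ≤ α i) (hε : 0 < ε) :
    ∃ (d₀ w₀ : ℕ) (κ : ℝ), ∀ w, w₀ ≤ w → ∀ C d : ℕ, d₀ ≤ d → ∃ X₀ : ℕ, ∀ X, X₀ ≤ X →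
      ∀ (F : Fin n → Polynomial ℤ) (Z : Fin n → Fin d → ℤ) (Y : Fin n → Fin d → ℕ) (K₀ K : ℕ),
      κ * Real.log X ^ n ≤ K → Sizes C X F Z Y (Ioc K₀ (K₀ + K)) →
      ∃ E : Finset (Fin n → Fin d → ℤ), (E.card : ℝ) ≤ ε * (Arrays Z Y).card ∧ ∀ c ∈ Arrays Z Y, c ∉ E →
        -- the gaps, for all `t` at the same time
        (∀ t : ℝ, 0 ≤ t → |(longGaps F c K₀ K (t * Real.log X ^ n) : ℝ) -
          K / Real.log X ^ n * (singular F w c * Real.exp (-(singular F w c * t)))| ≤
          ε * (K / Real.log X ^ n)) ∧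
        -- the joint law in windows
        (∀ A : Finset (Fin r → ℕ), |(((Ico K₀ (K₀ + K)).filter (fun k => (fun i => primePoints F
          (Ioc (k + ⌊α i * Real.log X ^ n⌋₊) (k + ⌊β i * Real.log X ^ n⌋₊)) c) ∈ A)).card : ℝ) -
          K * Poisson (fun i => singular F w c * (β i - α i)) A| ≤ ε * K) := by
  obtain ⟨d1, w1, κ1, hw1, hκ1, h1⟩ := gap_all hn (ε / 2) (by positivity)
  obtain ⟨d2, w2, κ2, hw2, hκ2, h2⟩ := pat_all (τ := Fin r) hn α β (fun i => (hαβ i).1) (fun i => (hαβ i).2) hdis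
    (ε / 2) (by positivity)
  refine ⟨max d1 d2, max w1 w2, max κ1 κ2, ?_⟩
  intro w hw C d hd
  obtain ⟨X0, hX0⟩ := eventually_atTop.1 (((h1 w (by omega) C d (by omega)).and (h2 w (by omega) C d (by omega))).and
    ((ev_log_ge 1).and (ev_pow_log 1)))
  refine ⟨X0, ?_⟩
  intro X hX F Z Y K0 K hK hsz
  obtain ⟨⟨g1, g2⟩, hL, hP⟩ := hX0 X hX
  have hL0 : 0 < Real.log (X : ℝ) := by linarith
  have hLn : 0 < Real.log (X : ℝ) ^ n := by positivity
  have hXp : (0 : ℝ) < (X : ℝ) / Real.log X ^ C := by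
    have : (0 : ℝ) < X := by
      rw [pow_one] at hP
      linarith
    positivity
  have hsz' := sizes_sz C X F Z Y _ hsz hXp
  have q1 := g1 F Z Y K0 K ((mul_le_mul_of_nonneg_right (le_max_left κ1 κ2) hLn.le).trans hK) hsz'
  have q2 := g2 F Z Y K0 K ((mul_le_mul_of_nonneg_right (le_max_right κ1 κ2) hLn.le).trans hK) hsz'
  obtain ⟨E1, hE1⟩ : ∃ E1, E1 = (BoxN Z Y).filter (fun c => ¬∀ t : ℝ, 0 ≤ t →
      |((cons (PrA (fe F) c) K0 K (t * Real.log X ^ n)).card : ℝ) - K / Real.log X ^ n *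
        (ssw F w c * Real.exp (-(ssw F w c * t)))| ≤ ε / 2 * (K / Real.log X ^ n)) := ⟨_, rfl⟩
  obtain ⟨E2, hE2⟩ : ∃ E2, E2 = (BoxN Z Y).filter (fun c => ¬∀ A : Finset (Fin r → ℕ),
      |(((Ico K0 (K0 + K)).filter (fun k => (fun t => Np (fe F) (Ioc (k + ⌊α t * Real.log X ^ n⌋₊)
        (k + ⌊β t * Real.log X ^ n⌋₊)) c) ∈ A)).card : ℝ) - K * PoJ (fun t => ssw F w c * (β t - α t)) A| ≤
        ε / 2 * K) := ⟨_, rfl⟩
  rw [← hE1] at q1
  rw [← hE2] at q2
  refine ⟨E1 ∪ E2, ?_, ?_⟩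
  · have h3 : ((E1 ∪ E2).card : ℝ) ≤ E1.card + E2.card := by exact_mod_cast card_union_le E1 E2
    rw [arrays_eq]
    linarith
  · intro c hc hcE
    rw [arrays_eq] at hc
    rw [mem_union, not_or] at hcE
    have hKn : (0 : ℝ) ≤ K := Nat.cast_nonneg _
    have hKL : 0 ≤ (K : ℝ) / Real.log X ^ n := by positivity
    rw [singular_eq]
    constructor
    · intro t ht
      have h3 : ∀ t : ℝ, 0 ≤ t →
          |((cons (PrA (fe F) c) K0 K (t * Real.log X ^ n)).card : ℝ) - K / Real.log X ^ n *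
            (ssw F w c * Real.exp (-(ssw F w c * t)))| ≤ ε / 2 * (K / Real.log X ^ n) := by
        by_contra h4
        apply hcE.1
        rw [hE1, mem_filter]
        exact ⟨hc, h4⟩
      have h4 := h3 t ht
      have e1 : longGaps F c K0 K (t * Real.log X ^ n) = (cons (PrA (fe F) c) K0 K (t * Real.log X ^ n)).card := rfl
      rw [e1]
      refine h4.trans ?_
      apply mul_le_mul_of_nonneg_right _ hKL
      linarith
    · intro A
      have h3 : ∀ A : Finset (Fin r → ℕ),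
          |(((Ico K0 (K0 + K)).filter (fun k => (fun t => Np (fe F) (Ioc (k + ⌊α t * Real.log X ^ n⌋₊)
            (k + ⌊β t * Real.log X ^ n⌋₊)) c) ∈ A)).card : ℝ) - K * PoJ (fun t => ssw F w c * (β t - α t)) A| ≤
            ε / 2 * K := by
        by_contra h4
        apply hcE.2
        rw [hE2, mem_filter]
        exact ⟨hc, h4⟩
      have h4 := h3 A
      have e1 : ∀ T : Finset ℕ, primePoints F T c = Np (fe F) T c := fun T => rfl
      simp only [e1]
      refine le_trans ?_ (h4.trans (mul_le_mul_of_nonneg_right (by linarith : ε / 2 ≤ ε) hKn))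
      exact le_rfl

end Pool.Agent.Results.MP_51e72e_nt.ExponentialGaps
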