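import Pool.Agent.Q236.LG.AllM

set_option autoImplicit false

/-!
# Bateman-Horn in every short interval for all linear systems of complexity one over a random family

Let `P_i = F_i + c_{i0} + c_{i1} x + … + c_{i,d-1} x^(d-1)`, `i = 1, …, m`, with ARBITRARY `F_i ∈ ℤ[x]` of bounded degree
and `m ≤ log^E X`, where the coefficients `c_{ij}` run independently through the integers of intervals of length at
least `X / log^C X`, and let `R` be ANY set of at most `log^E X` integers.

If the number `d` of the random coefficients is large enough in terms of `N, K, B, E, η`, then for all but a proportion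
`log^(-B) X` of the families `(P_1, …, P_m)` the following holds AT THE SAME TIME for all systems of `e ≤ N` affine forms

`Q_t = ∑_i s_{ti} P_i + r_t`, `t = 1, …, e`, in at most `N` members of the family, `|s_{ti}| ≤ K`, `r_t ∈ R`,

of complexity one whose values at the arguments up to `log^E X` have the size `X` up to `log^C X`, for all progressions
`b + q k` and for all intervals `(a, a + h]` with `b + q (a + h) ≤ log^E X` and `h ≥ log^(e + η) X`:

* the number of the `k` in `(a, a + h]` such that ALL the `Q_t(b + q k)` are PRIME is `(1 + O*(ε)) 𝔖 h / log^e X`, where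
  `𝔖` is the singular series of Bateman-Horn of the system of the polynomials `Q_t(b + q x)`, the product over the
  primes `p ≤ z`; `z` is arbitrary with `log^A₀ X ≤ z ≤ log^A X`;
* in particular, if this system has no fixed prime divisor `≤ z`, every such interval contains such a `k`.

The members of the systems may be LINEARLY DEPENDENT. Examples: any `N` members of the family; the progressions
`P_1, P_2, 2 P_2 - P_1` of three primes; `P_1, P_2, P_1 + P_2 + r`; `P_1, P_2, r - P_1 - P_2`, that is, EVERY integer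
`r` is a sum of three primes of the shape `P_1(k) + P_2(k) + p` in every short interval of arguments `k`.
-/

namespace Pool.Agent.Results.MP_51e72e_nt.LinearSystems

open Finset Filter

/-- The value at `k` of `F + c_0 + c_1 x + … + c_{d-1} x^(d-1)`. -/
noncomputable def value {d : ℕ} (F : Polynomial ℤ) (c : Fin d → ℤ) (k : ℕ) : ℤ :=
  F.eval (k : ℤ) + ∑ j, c j * (k : ℤ) ^ (j : ℕ)

/-- The arrays of coefficients `Z i j < c i j ≤ Z i j + Y i j`. -/
noncomputable def Arrays {m d : ℕ} (Z : Fin m → Fin d → ℤ) (Y : Fin m → Fin d → ℕ) : Finset (Fin m → Fin d → ℤ) :=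
  Fintype.piFinset fun i => Fintype.piFinset fun j => Ioc (Z i j) (Z i j + Y i j)

/-- The value at `k` of the form `Q_t = ∑_i s_{ti} P_i + r_t`. -/
noncomputable def form {m d e : ℕ} (F : Fin m → Polynomial ℤ) (c : Fin m → Fin d → ℤ) (s : Fin e → Fin m → ℤ)
    (r : Fin e → ℤ) (k : ℕ) (t : Fin e) : ℤ :=
  ∑ i, s t i * value (F i) (c i) k + r t

/-- Complexity one: for every `t` there are two directions in which the form `t` is not constant and such that every
other form is constant in one of them; in other words, the other forms fall into two classes such that the linear part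
of the form `t` is not in the linear span of the linear parts of one of the classes. -/
def ComplexityOne {m e : ℕ} (s : Fin e → Fin m → ℤ) : Prop :=
  ∀ t, ∃ u w : Fin m → ℤ, ∑ i, s t i * u i ≠ 0 ∧ ∑ i, s t i * w i ≠ 0 ∧
    ∀ t', t' ≠ t → ∑ i, s t' i * u i = 0 ∨ ∑ i, s t' i * w i = 0

open Classical in
/-- The number of the `k` with `a < k ≤ a + h` such that all the `Q_t(b + q k)` are primes. -/
noncomputable def primePoints {m d e : ℕ} (F : Fin m → Polynomial ℤ) (c : Fin m → Fin d → ℤ) (s : Fin e → Fin m → ℤ)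
    (r : Fin e → ℤ) (b q a h : ℕ) : ℕ :=
  ((Ioc a (a + h)).filter (fun k => ∀ t, (form F c s r (b + q * k) t).toNat.Prime)).card

open Classical in
/-- The number of the residues `k` modulo `p` such that `p` divides one of the `Q_t(b + q k)`. -/
noncomputable def omega {m d e : ℕ} (F : Fin m → Polynomial ℤ) (c : Fin m → Fin d → ℤ) (s : Fin e → Fin m → ℤ)
    (r : Fin e → ℤ) (b q p : ℕ) : ℕ :=
  ((range p).filter (fun k => ∃ t, (p : ℤ) ∣ form F c s r (b + q * k) t)).card

/-- The singular series of the system `Q_t(b + q x)`, `t = 1, …, e`: the product of `(1 - ω(p) / p) / (1 - 1 / p)^e` over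
the primes `p ≤ z`. -/
noncomputable def singular {m d e : ℕ} (F : Fin m → Polynomial ℤ) (c : Fin m → Fin d → ℤ) (s : Fin e → Fin m → ℤ)
    (r : Fin e → ℤ) (b q z : ℕ) : ℝ :=
  ∏ p ∈ (Icc 1 z).filter Nat.Prime, ((1 - (omega F c s r b q p : ℝ) / p) / (1 - 1 / (p : ℝ)) ^ e)

/-- The systems of `e ≤ N` forms of complexity one in at most `N` members, with coefficients at most `K` and constant
terms in `R`, whose values at `1 ≤ k ≤ log^E X` are between `X / log^C X` and `X log^C X` for all arrays. -/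
structure System (N K C E X : ℕ) (R : Finset ℤ) {m d e : ℕ} (F : Fin m → Polynomial ℤ) (Z : Fin m → Fin d → ℤ)
    (Y : Fin m → Fin d → ℕ) (s : Fin e → Fin m → ℤ) (r : Fin e → ℤ) : Prop where
  one_le : 1 ≤ e
  le : e ≤ N
  support : ∃ J : Finset (Fin m), J.card ≤ N ∧ ∀ t, ∀ i, i ∉ J → s t i = 0
  coeff : ∀ t i, |s t i| ≤ K
  const : ∀ t, r t ∈ R
  complexity : ComplexityOne s
  values : ∀ c ∈ Arrays Z Y, ∀ k : ℕ, 1 ≤ k → (k : ℝ) ≤ Real.log X ^ E → ∀ t,
    (X : ℝ) / Real.log X ^ C ≤ form F c s r k t ∧ (form F c s r k t : ℝ) ≤ X * Real.log X ^ C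

/-- The formula of Bateman and Horn holds for all these systems, all intervals of length at least `log^(e + η) X` and
all progressions below `log^E X`. -/
def Regular (N K C E : ℕ) (η ε : ℝ) (z X : ℕ) (R : Finset ℤ) {m d : ℕ} (F : Fin m → Polynomial ℤ)
    (Z : Fin m → Fin d → ℤ) (Y : Fin m → Fin d → ℕ) (c : Fin m → Fin d → ℤ) : Prop :=
  ∀ (e : ℕ) (s : Fin e → Fin m → ℤ) (r : Fin e → ℤ), System N K C E X R F Z Y s r → ∀ b q a h : ℕ, 1 ≤ q →
    ((b + q * (a + h) : ℕ) : ℝ) ≤ Real.log X ^ E → Real.log X ^ ((e : ℝ) + η) ≤ h →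
    -- the number of the prime points
    |(primePoints F c s r b q a h : ℝ) - singular F c s r b q z * (h / Real.log X ^ e)| ≤
      ε * (singular F c s r b q z * (h / Real.log X ^ e)) ∧
    -- without a fixed prime divisor there is one
    ((∀ p : ℕ, p.Prime → p ≤ z → ∃ k : ℕ, ∀ t, ¬ (p : ℤ) ∣ form F c s r (b + q * k) t) →
      ∃ k : ℕ, a < k ∧ k ≤ a + h ∧ ∀ t, (form F c s r (b + q * k) t).toNat.Prime)

open Pool.Agent.Q236.RP Pool.Agent.Q236.LG Pool.Agent.Q236.CG
open Pool.Agent.Q236.MR (pv)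

lemma arrays_eq {m d : ℕ} (Z : Fin m → Fin d → ℤ) (Y : Fin m → Fin d → ℕ) : Arrays Z Y = BA Z Y := rfl

lemma form_eq {m d e : ℕ} (F : Fin m → Polynomial ℤ) (c : Fin m → Fin d → ℤ) (s : Fin e → Fin m → ℤ) (r : Fin e → ℤ)
    (g : Fin e → Fin 0 → ℤ) (N : Fin 0 → ℤ) (k : ℕ) (t : Fin e) : fvl F c N s g r k t = form F c s r k t := by
  unfold fvl form
  rw [Finset.univ_eq_empty (α := Fin 0), Finset.sum_empty, add_zero]
  rfl

lemma points_eq {m d e : ℕ} (F : Fin m → Polynomial ℤ) (c : Fin m → Fin d → ℤ) (s : Fin e → Fin m → ℤ) (r : Fin e → ℤ)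
    (g : Fin e → Fin 0 → ℤ) (N : Fin 0 → ℤ) (b q a h : ℕ) : cntL F c N s g r b q a h = primePoints F c s r b q a h := by
  classical
  unfold cntL primePoints
  congr 1
  ext k
  simp only [mem_filter, form_eq]

lemma singular_eq {m d e : ℕ} (F : Fin m → Polynomial ℤ) (c : Fin m → Fin d → ℤ) (s : Fin e → Fin m → ℤ) (r : Fin e → ℤ)
    (g : Fin e → Fin 0 → ℤ) (N : Fin 0 → ℤ) (b q z : ℕ) : sgL F c N s g r b q z = singular F c s r b q z := by
  classical
  unfold sgL singular
  apply Finset.prod_congr rfl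
  intro p _
  congr 4
  unfold omL omega
  congr 1
  ext k
  simp only [mem_filter, form_eq]

lemma co_eq {m e : ℕ} (s : Fin e → Fin m → ℤ) (g : Fin e → Fin 0 → ℤ) (h : ComplexityOne s) : CO s g := by
  intro t
  obtain ⟨u, w, h1, h2, h3⟩ := h t
  refine ⟨u, w, fun j => j.elim0, h1, ?_, ?_⟩
  · rw [Finset.univ_eq_empty (α := Fin 0), Finset.sum_empty, add_zero]
    exact h2
  · intro t' ht'
    rw [Finset.univ_eq_empty (α := Fin 0), Finset.sum_empty, add_zero]
    exact h3 t' ht'

lemma sing_pos {m d e : ℕ} (F : Fin m → Polynomial ℤ) (c : Fin m → Fin d → ℤ) (s : Fin e → Fin m → ℤ) (r : Fin e → ℤ)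
    (b q z : ℕ) (h : ∀ p : ℕ, p.Prime → p ≤ z → ∃ k : ℕ, ∀ t, ¬ (p : ℤ) ∣ form F c s r (b + q * k) t) :
    0 < singular F c s r b q z := by
  classical
  unfold singular
  apply Finset.prod_pos
  intro p hp
  rw [mem_filter, mem_Icc] at hp
  obtain ⟨⟨_, hpz⟩, hpp⟩ := hp
  have hp0 : (0 : ℝ) < p := by exact_mod_cast hpp.pos
  have hp1 : (1 : ℝ) < p := by exact_mod_cast hpp.one_lt
  obtain ⟨k, hk⟩ := h p hpp hpz
  have hlt : omega F c s r b q p < p := by
    unfold omega
    have h1 : ((range p).filter (fun k => ∃ t, (p : ℤ) ∣ form F c s r (b + q * k) t)) ⊂ range p := by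
      rw [Finset.ssubset_iff_of_subset (filter_subset _ _)]
      refine ⟨k % p, mem_range.2 (Nat.mod_lt _ hpp.pos), ?_⟩
      rw [mem_filter, not_and]
      rintro _ ⟨t, hd⟩
      apply hk t
      have hkm : b + q * (k % p) ≡ b + q * k [MOD p] := Nat.ModEq.add_left b (Nat.ModEq.mul_left q (Nat.mod_modEq k p))
      have h2 : ∀ j : ℕ, (p : ℤ) ∣ ((b + q * (k % p) : ℕ) : ℤ) ^ j - ((b + q * k : ℕ) : ℤ) ^ j := by
        intro j
        have h3 : (p : ℤ) ∣ ((b + q * (k % p) : ℕ) : ℤ) - ((b + q * k : ℕ) : ℤ) := Nat.modEq_iff_dvd.1 hkm.symm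
        exact h3.trans (sub_dvd_pow_sub_pow _ _ _)
      have h4 : ∀ i, (p : ℤ) ∣ value (F i) (c i) (b + q * (k % p)) - value (F i) (c i) (b + q * k) := by
        intro i
        unfold value
        have e1 : ∀ x y u v : ℤ, x + u - (y + v) = (x - y) + (u - v) := by intros; ring
        rw [e1]
        apply dvd_add
        · exact eval_mod _ p _ _ hkm
        · rw [← Finset.sum_sub_distrib]
          apply Finset.dvd_sum
          intro j _
          rw [← mul_sub]
          exact Dvd.dvd.mul_left (h2 _) _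
      have h5 : (p : ℤ) ∣ form F c s r (b + q * (k % p)) t - form F c s r (b + q * k) t := by
        unfold form
        rw [add_sub_add_right_eq_sub, ← Finset.sum_sub_distrib]
        apply Finset.dvd_sum
        intro i _
        rw [← mul_sub]
        exact Dvd.dvd.mul_left (h4 i) _
      have h6 := dvd_sub hd h5
      rwa [sub_sub_cancel] at h6
    have h6 := card_lt_card h1
    rwa [card_range] at h6
  apply div_pos
  · rw [sub_pos, div_lt_one hp0]
    exact_mod_cast hlt
  · apply pow_pos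
    rw [sub_pos, div_lt_one hp0]
    exact hp1

open Classical in
/-- **The conjecture of Bateman and Horn in all short intervals of all progressions, for all linear systems of
complexity one over a random family.** -/
theorem result (N K B E : ℕ) (η : ℝ) (hη : 0 < η) : ∃ d₀ : ℕ, ∀ C d : ℕ, d₀ ≤ d → ∃ A₀ : ℕ, ∀ (A D : ℕ) (ε : ℝ),
    0 < ε → ∃ X₀ : ℕ, ∀ X, X₀ ≤ X → ∀ z : ℕ, Real.log X ^ A₀ ≤ z → (z : ℝ) ≤ Real.log X ^ A →
    ∀ m : ℕ, (m : ℝ) ≤ Real.log X ^ E → ∀ R : Finset ℤ, (R.card : ℝ) ≤ Real.log X ^ E →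
    ∀ (F : Fin m → Polynomial ℤ) (Z : Fin m → Fin d → ℤ) (Y : Fin m → Fin d → ℕ), (∀ i, (F i).natDegree ≤ D) →
    (∀ i j, (X : ℝ) / Real.log X ^ C ≤ Y i j) →
    (((Arrays Z Y).filter (fun c => ¬ Regular N K C E η ε z X R F Z Y c)).card : ℝ) ≤
      (Arrays Z Y).card / Real.log X ^ B := by
  obtain ⟨d0, hd0⟩ := all_lin N K 0 B E η hη
  refine ⟨d0, ?_⟩
  intro C d hd
  obtain ⟨A0, hA0⟩ := hd0 C d hd
  refine ⟨A0, ?_⟩
  intro A D ε hε
  obtain ⟨X0, hX0⟩ := eventually_atTop.1 ((hA0 A D (min ε (1 / 2)) (by positivity)).and ((ev_log_ge 1).and (ev_pow_log 1)))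
  refine ⟨X0, ?_⟩
  intro X hX z hz1 hz2 m hm R hR F Z Y hF hS
  obtain ⟨h1, hL, hP⟩ := hX0 X hX
  have hL0 : 0 < Real.log (X : ℝ) := by linarith
  obtain ⟨Z', hZ'⟩ : ∃ Z' : Fin 0 → ℤ, Z' = fun j => j.elim0 := ⟨_, rfl⟩
  obtain ⟨Y', hY'⟩ : ∃ Y' : Fin 0 → ℕ, Y' = fun j => j.elim0 := ⟨_, rfl⟩
  obtain ⟨N0, hN0⟩ : ∃ N0 : Fin 0 → ℤ, N0 = fun j => j.elim0 := ⟨_, rfl⟩
  have hN0m : N0 ∈ Box Z' Y' := by
    rw [mem_Box]
    intro j
    exact j.elim0
  have hbox : (Box Z' Y').card = 1 := by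
    rw [card_Box]
    simp
  have h2 := h1 z hz1 hz2 m hm R hR F Z Y Z' Y' hF hS (fun j => j.elim0)
  rw [card_product, hbox, mul_one] at h2
  rw [arrays_eq]
  refine le_trans ?_ h2
  have hinj : ((BA Z Y).filter (fun c => ¬ Regular N K C E η ε z X R F Z Y c)).card ≤ ((BA Z Y ×ˢ Box Z' Y').filter (fun ω =>
      ∃ (J : Finset (Fin m)) (e : ℕ) (s : Fin e → Fin m → ℤ) (g : Fin e → Fin 0 → ℤ)
      (r : Fin e → ℤ), J.card ≤ N ∧ 1 ≤ e ∧ e ≤ N ∧ (∀ t i, |s t i| ≤ K) ∧ (∀ t j, |g t j| ≤ K) ∧ (∀ t, ∀ i, i ∉ J → s t i = 0) ∧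
      (∀ t, r t ∈ R) ∧ CO s g ∧
      (∀ c ∈ BA Z Y, ∀ N' ∈ Box Z' Y', ∀ k : ℕ, 1 ≤ k → (k : ℝ) ≤ Real.log X ^ E → ∀ t,
        (X : ℝ) / Real.log X ^ C ≤ fvl F c N' s g r k t ∧ (fvl F c N' s g r k t : ℝ) ≤ X * Real.log X ^ C) ∧
      ∃ b q a h : ℕ, 1 ≤ q ∧ ((b + q * (a + h) : ℕ) : ℝ) ≤ Real.log X ^ E ∧ Real.log X ^ ((e : ℝ) + η) ≤ h ∧
      ¬ |(cntL F ω.1 ω.2 s g r b q a h : ℝ) - sgL F ω.1 ω.2 s g r b q z * (h / Real.log X ^ e)| ≤
        min ε (1 / 2) * (sgL F ω.1 ω.2 s g r b q z * (h / Real.log X ^ e)))).card := by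
    apply card_le_card_of_injOn (fun c => (c, N0))
    · intro c hc
      simp only [coe_filter, Set.mem_setOf_eq] at hc ⊢
      refine ⟨mem_product.2 ⟨hc.1, hN0m⟩, ?_⟩
      by_contra hno
      push Not at hno
      apply hc.2
      intro e s r hsys b q a h hq hbq hh
      obtain ⟨J, hJN, hJs⟩ := hsys.support
      have h3 := hno J e s (fun _ j => j.elim0) r hJN hsys.one_le hsys.le hsys.coeff (fun _ j => j.elim0) hJs hsys.const
        (co_eq s _ hsys.complexity) (by
          intro c' hc' N' _ k hk1 hk2 t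
          rw [form_eq]
          exact hsys.values c' hc' k hk1 hk2 t) b q a h hq hbq hh
      rw [points_eq, singular_eq] at h3
      obtain ⟨G, hG⟩ : ∃ G, G = singular F c s r b q z * (h / Real.log X ^ e) := ⟨_, rfl⟩
      rw [← hG] at h3 ⊢
      have hG0 : 0 ≤ G := by
        by_contra hlt
        push Not at hlt
        have h4 : min ε (1 / 2) * G < 0 := mul_neg_of_pos_of_neg (by positivity) hlt
        linarith [abs_nonneg ((primePoints F c s r b q a h : ℝ) - G)]
      refine ⟨h3.trans (mul_le_mul_of_nonneg_right (min_le_left _ _) hG0), ?_⟩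
      intro hadm
      have hs := sing_pos F c s r b q z hadm
      have hh0 : (0 : ℝ) < h := lt_of_lt_of_le (Real.rpow_pos_of_pos hL0 _) hh
      have hGp : 0 < G := by rw [hG]; positivity
      have h5 : 0 < (primePoints F c s r b q a h : ℝ) := by
        have h6 := (abs_le.1 h3).1
        have h7 : min ε (1 / 2) * G ≤ 1 / 2 * G := mul_le_mul_of_nonneg_right (min_le_right _ _) hG0
        linarith
      have h8 : 0 < primePoints F c s r b q a h := by exact_mod_cast h5
      unfold primePoints at h8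
      rw [card_pos] at h8
      obtain ⟨k, hk⟩ := h8
      rw [mem_filter, mem_Ioc] at hk
      exact ⟨k, hk.1.1, hk.1.2, hk.2⟩
    · intro c _ c' _ h
      exact (Prod.mk.inj h).1
  exact_mod_cast hinj

end Pool.Agent.Results.MP_51e72e_nt.LinearSystems
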